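import Mathlib
set_option autoImplicit false
open Complex Filter Topology

namespace Pool.Agent.Results.MP_e36abb_an.AperiodicSigns

noncomputable def rho : ℂ := ⟨2/3, -(√5/3)⟩
noncomputable def rc : ℂ := ⟨2/3, √5/3⟩
noncomputable def cQ : ℂ := ⟨1/2, -(√5/10)⟩

theorem irr : Irrational (Real.arccos (2/3) / (2 * Real.pi)) := by
  rintro ⟨q, hq⟩
  have hpi := Real.pi_pos
  have h1 : Real.arccos (2/3) = ((2*q : ℚ) : ℝ) * Real.pi := by
    push_cast
    rw [hq]
    field_simp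
  have h2 : Real.cos (Real.arccos (2/3)) = 2/3 := Real.cos_arccos (by norm_num) (by norm_num)
  have h3 := niven ⟨2*q, h1⟩ ⟨2/3, by rw [h2]; norm_num⟩
  rw [h2] at h3
  simp only [Set.mem_insert_iff, Set.mem_singleton_iff] at h3
  norm_num at h3

theorem rho_eq : rho = exp (-(Real.arccos (2/3) : ℝ) * I) := by
  rw [show (-(Real.arccos (2/3) : ℝ) : ℂ) * I = ((-(Real.arccos (2/3)) : ℝ) : ℂ) * I by push_cast; ring]
  rw [exp_mul_I, ← ofReal_cos, ← ofReal_sin, Real.cos_neg, Real.sin_neg, Real.cos_arccos (by norm_num) (by norm_num),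
    Real.sin_arccos]
  have h : √(1 - (2/3:ℝ)^2) = √5/3 := by
    rw [show (1 - (2/3:ℝ)^2) = 5/3^2 by norm_num, Real.sqrt_div (by norm_num), Real.sqrt_sq (by norm_num)]
  rw [h]
  apply Complex.ext <;> simp [rho]

theorem negrho_eq : -rho = exp (2 * Real.pi * ((1/2 - Real.arccos (2/3) / (2 * Real.pi) : ℝ) : ℂ) * I) := by
  rw [rho_eq]
  have hpi : (Real.pi : ℂ) ≠ 0 := by exact_mod_cast Real.pi_ne_zero
  rw [show (2 * Real.pi * ((1/2 - Real.arccos (2/3) / (2 * Real.pi) : ℝ) : ℂ) * I : ℂ) =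
    Real.pi * I + -(Real.arccos (2/3) : ℝ) * I by push_cast; field_simp; ring]
  rw [exp_add, exp_pi_mul_I]
  ring

theorem irr' : Irrational (1/2 - Real.arccos (2/3) / (2 * Real.pi)) := by
  have := irr.ratCast_sub (1/2)
  simpa using this

theorem negrho_pow_ne (n : ℕ) (hn : 0 < n) : (-rho)^n ≠ 1 := by
  intro h
  rw [negrho_eq, ← exp_nat_mul, exp_eq_one_iff] at h
  obtain ⟨k, hk⟩ := h
  apply irr'
  have hpi : (Real.pi : ℂ) ≠ 0 := by exact_mod_cast Real.pi_ne_zero
  have hn' : (n : ℝ) ≠ 0 := by positivity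
  refine ⟨(k : ℚ) / n, ?_⟩
  have h2 : (n : ℂ) * ((1/2 - Real.arccos (2/3) / (2 * Real.pi) : ℝ) : ℂ) = k := by
    have h3 : (2 * Real.pi * I : ℂ) ≠ 0 := by simp [hpi]
    apply mul_left_cancel₀ h3
    linear_combination hk
  have h4 : (n : ℝ) * (1/2 - Real.arccos (2/3) / (2 * Real.pi)) = k := by
    exact_mod_cast h2
  push_cast
  rw [div_eq_iff hn', ← h4]
  ring

theorem dense_pow (w : ℂ) (hw : ‖w‖ = 1) (δ : ℝ) (hδ : 0 < δ) (J : ℕ) :
    ∃ j ≥ J, ‖(-rho)^j - w‖ < δ := by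
  have : Fact ((0:ℝ) < 1) := ⟨one_pos⟩
  set β : ℝ := 1/2 - Real.arccos (2/3) / (2 * Real.pi) with hβ
  have h1 : DenseRange (· • ((β : ℝ) : AddCircle (1:ℝ)) : ℤ → AddCircle (1:ℝ)) := by
    rw [AddCircle.denseRange_zsmul_coe_iff]
    rw [div_one]
    exact irr'
  have h2 : ∀ x : AddCircle (1:ℝ), MapClusterPt x atTop (fun n : ℕ => n • ((β : ℝ) : AddCircle (1:ℝ))) := by
    intro x
    exact (((mapClusterPt_atTop_nsmul_tfae x ((β : ℝ) : AddCircle (1:ℝ))).out 0 3).2 (h1 x))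
  have h3 : ∃ x : AddCircle (1:ℝ), (AddCircle.toCircle x : ℂ) = w := by
    refine ⟨((Complex.arg w / (2 * Real.pi) : ℝ) : AddCircle (1:ℝ)), ?_⟩
    rw [AddCircle.toCircle_apply_mk, Circle.coe_exp]
    have hpi := Real.pi_pos
    rw [show (2 * Real.pi / 1 * (arg w / (2 * Real.pi))) = arg w by field_simp]
    have := Complex.norm_mul_exp_arg_mul_I w
    rw [hw] at this
    simpa using this
  obtain ⟨x, hx⟩ := h3
  have h4 : Continuous (fun y : AddCircle (1:ℝ) => ‖(AddCircle.toCircle y : ℂ) - w‖) := by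
    have : Continuous (fun y : AddCircle (1:ℝ) => (AddCircle.toCircle y)) := AddCircle.continuous_toCircle
    fun_prop
  have h5 : {y : AddCircle (1:ℝ) | ‖(AddCircle.toCircle y : ℂ) - w‖ < δ} ∈ 𝓝 x := by
    apply (isOpen_lt h4 continuous_const).mem_nhds
    simp [hx, hδ]
  have h6 := (mapClusterPt_iff_frequently.1 (h2 x)) _ h5
  obtain ⟨j, hj, hj'⟩ := (frequently_atTop.1 h6) J
  refine ⟨j, hj, ?_⟩
  have h7 : (AddCircle.toCircle (j • ((β : ℝ) : AddCircle (1:ℝ))) : ℂ) = (-rho)^j := by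
    rw [AddCircle.toCircle_nsmul, AddCircle.toCircle_apply_mk, Circle.coe_pow, Circle.coe_exp, negrho_eq, ← hβ]
    congr 2
    push_cast
    ring
  have h8 : ‖(AddCircle.toCircle (j • ((β : ℝ) : AddCircle (1:ℝ))) : ℂ) - w‖ < δ := hj'
  rwa [h7] at h8

theorem s5 : √5 * √5 = (5:ℝ) := Real.mul_self_sqrt (by norm_num)

theorem rho_rc : rho * rc = 1 := by
  apply Complex.ext
  · simp [rho, rc]; linear_combination (1/9) * s5
  · simp [rho, rc]; ring

theorem norm_rho : ‖rho‖ = 1 := by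
  have h : normSq rho = 1 := by
    rw [normSq_apply]
    simp [rho]
    linear_combination (1/9) * s5
  rw [Complex.norm_def, h, Real.sqrt_one]

theorem rho_sq : rho^2 = 4/3*rho - 1 := by
  apply Complex.ext
  · simp [rho, pow_two]; norm_num; linear_combination -(1/9) * s5
  · simp [rho, pow_two]; norm_num; ring

theorem cQ_eq : cQ * (1 + rho) = rho := by
  apply Complex.ext
  · simp [rho, cQ]; norm_num; linear_combination -(1/30) * s5
  · simp [rho, cQ]; norm_num; ring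

noncomputable def g (w : ℂ) : ℂ := if 0 < (rho*(w-1)).re then rho*(w-1) else -(rho*(w-1))

noncomputable def orb (u : ℂ) (n : ℕ) : ℂ := g^[n] u

def fl (u : ℂ) (n : ℕ) : Prop := 0 < (rho*(orb u n - 1)).re

theorem orb_zero (u : ℂ) : orb u 0 = u := rfl
theorem orb_succ (u : ℂ) (n : ℕ) : orb u (n+1) = g (orb u n) := by
  unfold orb; rw [Function.iterate_succ_apply']
theorem orb_add (u : ℂ) (m n : ℕ) : orb u (m+n) = orb (orb u m) n := by
  unfold orb; rw [← Function.iterate_add_apply, add_comm]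
theorem fl_add (u : ℂ) (m n : ℕ) : fl u (m+n) ↔ fl (orb u m) n := by
  unfold fl; rw [orb_add]

theorem g_P {w : ℂ} (h : 0 < (rho*(w-1)).re) : g w = rho*(w-1) := by
  unfold g; rw [if_pos h]
theorem g_Q {w : ℂ} (h : 0 < (-(rho*(w-1))).re) : g w = -(rho*(w-1)) := by
  unfold g
  rw [if_neg]
  rw [neg_re] at h
  linarith

theorem local_iso (u : ℂ) (N : ℕ) (h : ∀ i ≤ N, 0 < (orb u i).re) :
    ∃ r > 0, ∃ c : ℂ, ‖c‖ = 1 ∧ ∀ u', ‖u' - u‖ < r →
      (∀ i ≤ N, 0 < (orb u' i).re) ∧ (∀ i < N, (fl u' i ↔ fl u i)) ∧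
      orb u' N = orb u N + c * (u' - u) := by
  induction N with
  | zero =>
    refine ⟨u.re, h 0 le_rfl, 1, by simp, fun u' hu' => ⟨?_, ?_, ?_⟩⟩
    · intro i hi
      obtain rfl : i = 0 := by omega
      have h1 := Complex.abs_re_le_norm (u' - u)
      rw [orb_zero]
      rw [sub_re] at h1
      have h2 := (abs_le.1 h1).1
      linarith
    · intro i hi; omega
    · simp [orb_zero]
  | succ N ih =>
    obtain ⟨r, hr, c, hc, H⟩ := ih (fun i hi => h i (by omega))
    have hg := h (N+1) le_rfl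
    rw [orb_succ] at hg
    have key : ∃ σ : ℂ, ‖σ‖ = 1 ∧ g (orb u N) = σ * (rho * (orb u N - 1)) ∧
      ∀ w', 0 < (σ * (rho * (w' - 1))).re → g w' = σ * (rho * (w' - 1)) ∧
        (0 < (rho * (w' - 1)).re ↔ 0 < (rho * (orb u N - 1)).re) := by
      by_cases hp : 0 < (rho * (orb u N - 1)).re
      · refine ⟨1, by simp, ?_, ?_⟩
        · rw [g_P hp]; ring
        · intro w' hw'
          rw [one_mul] at hw' ⊢
          exact ⟨g_P hw', ⟨fun _ => hp, fun _ => hw'⟩⟩
      · refine ⟨-1, by simp, ?_, ?_⟩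
        · unfold g; rw [if_neg hp]; ring
        · intro w' hw'
          rw [neg_one_mul] at hw' ⊢
          refine ⟨g_Q hw', ?_⟩
          constructor
          · intro h3; rw [neg_re] at hw'; linarith
          · intro h3; exact absurd h3 hp
    obtain ⟨σ, hσ, hσ1, hσ2⟩ := key
    refine ⟨min r (g (orb u N)).re, lt_min hr hg, σ * rho * c, by simp [hσ, hc, norm_rho], ?_⟩
    intro u' hu'
    obtain ⟨H1, H2, H3⟩ := H u' (lt_of_lt_of_le hu' (min_le_left _ _))
    have h5 : σ * (rho * (orb u' N - 1)) = g (orb u N) + σ * rho * c * (u' - u) := by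
      rw [H3, hσ1]; ring
    have h6 : 0 < (σ * (rho * (orb u' N - 1))).re := by
      rw [h5, add_re]
      have h7 := Complex.abs_re_le_norm (σ * rho * c * (u' - u))
      have h8 : ‖σ * rho * c * (u' - u)‖ = ‖u' - u‖ := by simp [hσ, hc, norm_rho]
      rw [h8] at h7
      have h9 := lt_of_lt_of_le hu' (min_le_right _ _)
      have h10 := (abs_le.1 h7).1
      linarith
    obtain ⟨h11, h12⟩ := hσ2 _ h6
    have h13 : orb u' (N+1) = orb u (N+1) + σ * rho * c * (u' - u) := by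
      rw [orb_succ, orb_succ, h11, h5]
    refine ⟨?_, ?_, h13⟩
    · intro i hi
      rcases Nat.lt_or_ge i (N+1) with h' | h'
      · exact H1 i (by omega)
      · obtain rfl : i = N+1 := by omega
        rw [orb_succ, h11]
        exact h6
    · intro i hi
      rcases Nat.lt_or_ge i N with h' | h'
      · exact H2 i h'
      · obtain rfl : i = N := by omega
        exact h12

noncomputable def TQ : ℂ := cQ + rc / 2
noncomputable def yy (s : ℝ) : ℂ := TQ - rc^3 * (I * s / (1 - I * s))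

theorem ne_aux (s : ℝ) : (1 - I * s : ℂ) ≠ 0 := by
  intro h
  have := congrArg Complex.re h
  simp at this

theorem yy_tendsto : Tendsto yy (𝓝[>] (0:ℝ)) (𝓝 TQ) := by
  have h1 : Continuous yy := by
    unfold yy
    have : Continuous (fun s : ℝ => (1 - I * s : ℂ)) := by fun_prop
    exact continuous_const.sub (continuous_const.mul ((by fun_prop : Continuous (fun s : ℝ => (I * s : ℂ))).div this ne_aux))
  have h2 : yy 0 = TQ := by simp [yy]
  rw [← h2]
  exact (h1.tendsto 0).mono_left nhdsWithin_le_nhds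

/-- four steps `P, Q, Q, P` -/
noncomputable def w1 (y : ℂ) : ℂ := rho * (y - 1)
noncomputable def w2 (y : ℂ) : ℂ := -(rho * (w1 y - 1))
noncomputable def w3 (y : ℂ) : ℂ := -(rho * (w2 y - 1))
noncomputable def w4 (y : ℂ) : ℂ := rho * (w3 y - 1)

theorem w1_cont : Continuous w1 := by unfold w1; fun_prop
theorem w2_cont : Continuous w2 := by unfold w2; have := w1_cont; fun_prop
theorem w3_cont : Continuous w3 := by unfold w3; have := w2_cont; fun_prop
theorem w4_cont : Continuous w4 := by unfold w4; have := w3_cont; fun_prop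

theorem w4_eq (s : ℝ) : w4 (yy s) = cQ - rho / 2 * ((1 + I * s) / (1 - I * s)) := by
  have h1 : (1 + I * s : ℂ) / (1 - I * s) = 1 + 2 * (I * s / (1 - I * s)) := by
    field_simp [ne_aux s]
    ring
  rw [h1]
  unfold w4 w3 w2 w1 yy TQ
  generalize (I * s / (1 - I * s) : ℂ) = t
  have e1 := rho_rc
  have e2 := rho_sq
  have e3 := cQ_eq
  have e4 : rho^4 * rc^3 = rho := by
    calc rho^4 * rc^3 = (rho * rc)^3 * rho := by ring
      _ = rho := by rw [e1]; ring
  have e5 : rho^4 * rc = rho^3 := by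
    calc rho^4 * rc = (rho * rc) * rho^3 := by ring
      _ = rho^3 := by rw [e1]; ring
  linear_combination (-t) * e4 + (1/2) * e5 + (rho^2+1)*(rho-1) * e3 - (3/2) * rho * e2

theorem t_eq (s : ℝ) : (I * s / (1 - I * s) : ℂ) = ⟨-s^2/(1+s^2), s/(1+s^2)⟩ := by
  have h : (1 + s^2 : ℝ) ≠ 0 := by positivity
  rw [div_eq_iff (ne_aux s)]
  apply Complex.ext
  · simp; field_simp; ring
  · simp; field_simp; ring

theorem rc_sq : rc^2 = ⟨-1/9, 4*√5/9⟩ := by
  apply Complex.ext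
  · simp [rc, pow_two]; linear_combination -(1/9) * s5
  · simp [rc, pow_two]; ring

theorem w1_TQ : w1 TQ = ⟨0, √5/10⟩ := by
  unfold w1 TQ
  apply Complex.ext
  · simp [rho, rc, cQ]; linear_combination (1/45) * s5
  · simp [rho, rc, cQ]; ring

theorem w2_TQ : w2 TQ = ⟨1/2, -(2*√5/5)⟩ := by
  unfold w2
  rw [w1_TQ]
  apply Complex.ext
  · simp [rho]; linear_combination (-1/30) * s5
  · simp [rho]; ring

theorem w3_TQ : w3 TQ = ⟨1, √5/10⟩ := by
  unfold w3
  rw [w2_TQ]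
  apply Complex.ext
  · simp [rho]; linear_combination (2/15) * s5
  · simp [rho]; ring

theorem w4_TQ : w4 TQ = ⟨1/6, √5/15⟩ := by
  unfold w4
  rw [w3_TQ]
  apply Complex.ext
  · simp [rho]; linear_combination (1/30) * s5
  · simp [rho]; ring

theorem w1_re (s : ℝ) : (w1 (yy s)).re = s * (4 * √5 - s) / (9 * (1 + s^2)) := by
  have h : (1 + s^2 : ℝ) ≠ 0 := by positivity
  have h1 : w1 (yy s) = w1 TQ - rc^2 * (I * s / (1 - I * s)) := by
    unfold w1 yy
    linear_combination (-(rc^2) * (I * s / (1 - I * s))) * rho_rc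
  rw [h1, w1_TQ, rc_sq, t_eq]
  simp
  field_simp


theorem norm_negrho : ‖-rho‖ = 1 := by rw [norm_neg, norm_rho]

theorem negrho_ne : -rho ≠ 0 := by
  intro h
  have := norm_negrho
  rw [h] at this
  simp at this

theorem negrho_inv : (-rho)⁻¹ = -rc := by
  apply inv_eq_of_mul_eq_one_right
  linear_combination rho_rc

theorem re_lt_one {z : ℂ} (h1 : ‖z‖ = 1) (h2 : z ≠ 1) : z.re < 1 := by
  have h3 := Complex.re_le_norm z
  rw [h1] at h3
  rcases lt_or_eq_of_le h3 with h | h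
  · exact h
  · exfalso
    apply h2
    have h4 : normSq z = 1 := by rw [normSq_eq_norm_sq, h1]; norm_num
    rw [normSq_apply, h] at h4
    have h5 : z.im = 0 := by nlinarith
    apply Complex.ext <;> simp [h, h5]

/-- `i` backward rotations about `cQ` -/
noncomputable def Y (i : ℕ) (y : ℂ) : ℂ := cQ + ((-rho)⁻¹)^i * (y - cQ)

theorem Y_cont (i : ℕ) : Continuous (Y i) := by unfold Y; fun_prop

theorem Y_step (i : ℕ) (y : ℂ) : -(rho * (Y (i+1) y - 1)) = Y i y := by
  unfold Y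
  have h1 : (-rho) * (-rho)⁻¹ = 1 := mul_inv_cancel₀ negrho_ne
  linear_combination (((-rho)⁻¹)^i * (y - cQ)) * h1 - cQ_eq

theorem orb_succ' (u : ℂ) (n : ℕ) : orb u (n+1) = orb (g u) n := by
  rw [add_comm, orb_add]; rfl

theorem back (y : ℂ) (j : ℕ) (h : ∀ i ≤ j, 0 < (Y i y).re) :
    (∀ m ≤ j, 0 < (orb (Y j y) m).re) ∧ (∀ m < j, ¬ fl (Y j y) m) ∧ orb (Y j y) j = y := by
  induction j with
  | zero =>
    have h0 : Y 0 y = y := by simp [Y]
    refine ⟨?_, ?_, ?_⟩
    · intro m hm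
      obtain rfl : m = 0 := by omega
      exact h 0 le_rfl
    · intro m hm; omega
    · rw [orb_zero, h0]
  | succ j ih =>
    obtain ⟨h1, h2, h3⟩ := ih (fun i hi => h i (by omega))
    have h4 : g (Y (j+1) y) = Y j y := by
      rw [g_Q, Y_step]
      rw [Y_step]
      exact h j (by omega)
    refine ⟨?_, ?_, ?_⟩
    · intro m hm
      rcases m with _ | m
      · exact h (j+1) le_rfl
      · rw [orb_succ', h4]; exact h1 m (by omega)
    · intro m hm
      rcases m with _ | m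
      · intro h5
        unfold fl at h5
        rw [orb_zero] at h5
        have h6 := h j (by omega)
        rw [← Y_step, neg_re] at h6
        linarith
      · rw [show m + 1 = 1 + m from add_comm _ _, fl_add]
        have : orb (Y (j+1) y) 1 = Y j y := by rw [← h4]; rfl
        rw [this]
        exact h2 m (by omega)
    · rw [orb_succ', h4, h3]

theorem norm_frac (s : ℝ) : ‖((1 + I * s) / (1 - I * s) : ℂ)‖ = 1 := by
  rw [norm_div]
  have h : ‖(1 + I * s : ℂ)‖ = ‖(1 - I * s : ℂ)‖ := by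
    rw [Complex.norm_def, Complex.norm_def, normSq_apply, normSq_apply]
    simp
  rw [h, div_self]
  exact norm_ne_zero_iff.2 (ne_aux s)

theorem extend (u : ℂ) (N : ℕ) (h : ∀ i ≤ N, 0 < (orb u i).re) (hc : ‖orb u N - cQ‖ = 1/2)
    (ε : ℝ) (hε : 0 < ε) (J : ℕ) :
    ∃ u' : ℂ, ∃ j, J ≤ j ∧ ‖u' - u‖ < ε ∧ (∀ i ≤ N + j + 4, 0 < (orb u' i).re) ∧
      ‖orb u' (N + j + 4) - cQ‖ = 1/2 ∧ (∀ i, N ≤ i → i < N + j → ¬ fl u' i) ∧ fl u' (N + j) := by
  obtain ⟨r, hr, c, hcn, H⟩ := local_iso u N h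
  set x := orb u N with hx
  have hxne : x - cQ ≠ 0 := by intro h0; rw [h0] at hc; norm_num at hc
  have hre : 0 < min r ε := lt_min hr hε
  obtain ⟨j', hj', hj''⟩ := dense_pow (-1 / (2 * (x - cQ)))
    (by rw [norm_div, norm_mul, hc]; norm_num) (2 * min r ε) (by positivity) (J+1)
  obtain ⟨j, rfl⟩ : ∃ j, j' = j+1 := ⟨j'-1, by omega⟩
  have hk : (-rho) * (-rho)⁻¹ = 1 := mul_inv_cancel₀ negrho_ne
  have hkn : ‖(-rho)⁻¹‖ = 1 := by rw [norm_inv, norm_negrho, inv_one]
  have hTQ : TQ - cQ = -((-rho)⁻¹) / 2 := by rw [negrho_inv]; unfold TQ; ring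
  have hclose : ‖Y j TQ - x‖ < min r ε := by
    have e1 : Y j TQ - x = -(((-rho)⁻¹)^(j+1) * (x - cQ) * ((-rho)^(j+1) - (-1 / (2 * (x - cQ))))) := by
      have e2 : ((-rho)⁻¹)^(j+1) * (-rho)^(j+1) = 1 := by
        rw [← mul_pow, mul_comm, hk, one_pow]
      have e3 : (x - cQ) * (-1 / (2 * (x - cQ))) = -1/2 := by field_simp
      unfold Y
      rw [hTQ]
      linear_combination (x - cQ) * e2 + (-((-rho)⁻¹)^(j+1)) * e3
    rw [e1, norm_neg, norm_mul, norm_mul, norm_pow, hkn, hc, one_pow]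
    linarith
  have ev : ∀ f : ℂ → ℂ, Continuous f → 0 < (f TQ).re →
      ∀ᶠ s in 𝓝[>] (0:ℝ), 0 < (f (yy s)).re := by
    intro f hf h0
    have h1 : Tendsto (fun s => (f (yy s)).re) (𝓝[>] (0:ℝ)) (𝓝 (f TQ).re) :=
      ((Complex.continuous_re.comp hf).tendsto TQ).comp yy_tendsto
    exact h1.eventually (lt_mem_nhds h0)
  have E1 : ∀ᶠ s in 𝓝[>] (0:ℝ), 0 < (w1 (yy s)).re := by
    have h5 : (0:ℝ) < 4 * √5 := by positivity
    filter_upwards [Ioo_mem_nhdsGT h5] with s hs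
    rw [w1_re]
    have h6 := hs.1
    have h7 : 0 < 4 * √5 - s := by linarith [hs.2]
    positivity
  have E2 := ev w2 w2_cont (by rw [w2_TQ]; norm_num)
  have E3 := ev w3 w3_cont (by rw [w3_TQ]; norm_num)
  have E4 := ev w4 w4_cont (by rw [w4_TQ]; norm_num)
  have E5 : ∀ᶠ s in 𝓝[>] (0:ℝ), ∀ i ∈ Finset.range (j+1), 0 < (Y i (yy s)).re := by
    rw [Finset.eventually_all]
    intro i _
    apply ev (Y i) (Y_cont i)
    have e1 : Y i TQ = cQ - ((-rho)⁻¹)^(i+1) / 2 := by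
      unfold Y; rw [hTQ]; ring
    rw [e1, sub_re]
    have e2 : (((-rho)⁻¹)^(i+1)).re < 1 := by
      apply re_lt_one
      · rw [norm_pow, hkn, one_pow]
      · rw [inv_pow]
        intro h9
        exact negrho_pow_ne (i+1) (by omega) (inv_eq_one.1 h9)
    have e3 : (((-rho)⁻¹)^(i+1) / 2).re = (((-rho)⁻¹)^(i+1)).re / 2 := by
      rw [show (((-rho)⁻¹)^(i+1) / 2 : ℂ) = (((-rho)⁻¹)^(i+1)) / ((2:ℝ):ℂ) by push_cast; rfl]
      rw [Complex.div_ofReal_re]
    rw [e3]
    have e4 : cQ.re = 1/2 := rfl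
    rw [e4]
    linarith
  have E6 : ∀ᶠ s in 𝓝[>] (0:ℝ), ‖Y j (yy s) - x‖ < min r ε := by
    have h1 : Tendsto (fun s => ‖Y j (yy s) - x‖) (𝓝[>] (0:ℝ)) (𝓝 ‖Y j TQ - x‖) := by
      have h2 : Continuous (fun y => ‖Y j y - x‖) := by have := Y_cont j; fun_prop
      exact (h2.tendsto TQ).comp yy_tendsto
    exact h1.eventually (gt_mem_nhds hclose)
  obtain ⟨s, F1, F2, F3, F4, F5, F6⟩ := (E1.and (E2.and (E3.and (E4.and (E5.and E6))))).exists
  set y := yy s with hy
  set X := Y j y with hX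
  have hc0 : c ≠ 0 := by intro h0; rw [h0] at hcn; simp at hcn
  obtain ⟨B1, B2, B3⟩ := back y j (fun i hi => F5 i (Finset.mem_range.2 (by omega)))
  have hnorm : ‖u + c⁻¹ * (X - x) - u‖ = ‖X - x‖ := by
    rw [add_sub_cancel_left, norm_mul, norm_inv, hcn, inv_one, one_mul]
  obtain ⟨G1, G2, G3⟩ := H (u + c⁻¹ * (X - x)) (by
    rw [hnorm]; exact lt_of_lt_of_le F6 (min_le_left _ _))
  have G4 : orb (u + c⁻¹ * (X - x)) N = X := by
    rw [G3]
    have : c * (u + c⁻¹ * (X - x) - u) = X - x := by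
      field_simp
      ring
    rw [this]
    ring
  have o1 : orb y 1 = w1 y := g_P F1
  have o2 : orb y 2 = w2 y := by
    rw [show (2:ℕ) = 1 + 1 from rfl, orb_succ, o1]; exact g_Q F2
  have o3 : orb y 3 = w3 y := by
    rw [show (3:ℕ) = 2 + 1 from rfl, orb_succ, o2]; exact g_Q F3
  have o4 : orb y 4 = w4 y := by
    rw [show (4:ℕ) = 3 + 1 from rfl, orb_succ, o3]; exact g_P F4
  refine ⟨u + c⁻¹ * (X - x), j, by omega, ?_, ?_, ?_, ?_, ?_⟩
  · rw [hnorm]; exact lt_of_lt_of_le F6 (min_le_right _ _)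
  · intro i hi
    rcases Nat.lt_or_ge N i with h' | h'
    · obtain ⟨m, rfl⟩ : ∃ m, i = N + m := ⟨i - N, by omega⟩
      rw [orb_add, G4]
      rcases Nat.lt_or_ge j m with h'' | h''
      · obtain ⟨k, rfl⟩ : ∃ k, m = j + k := ⟨m - j, by omega⟩
        rw [orb_add, B3]
        have hk4 : k = 1 ∨ k = 2 ∨ k = 3 ∨ k = 4 := by omega
        rcases hk4 with rfl | rfl | rfl | rfl
        · rw [o1]; exact F1
        · rw [o2]; exact F2
        · rw [o3]; exact F3
        · rw [o4]; exact F4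
      · exact B1 m h''
    · exact G1 i h'
  · rw [add_assoc, orb_add, G4, orb_add, B3, o4, w4_eq]
    have e1 : cQ - rho / 2 * ((1 + I * s) / (1 - I * s)) - cQ = -(rho / 2 * ((1 + I * s) / (1 - I * s))) := by
      ring
    rw [e1, norm_neg, norm_mul, norm_frac, norm_div, norm_rho]
    norm_num
  · intro i h1 h2
    obtain ⟨m, rfl⟩ : ∃ m, i = N + m := ⟨i - N, by omega⟩
    rw [fl_add, G4]
    exact B2 m (by omega)
  · rw [fl_add, G4]
    unfold fl
    rw [B3]
    exact F1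


/-- A stage of the construction: centre `p.1`, radius `p.2.1`, time `p.2.2`. -/
def St (p : ℂ × ℝ × ℕ) : Prop :=
  (∀ i ≤ p.2.2, 0 < (orb p.1 i).re) ∧ ‖orb p.1 p.2.2 - cQ‖ = 1/2 ∧ 0 < p.2.1 ∧
    ∀ v ∈ Metric.closedBall p.1 p.2.1, (∀ i ≤ p.2.2, 0 < (orb v i).re) ∧
      ∀ i < p.2.2, (fl v i ↔ fl p.1 i)

theorem mkSt (u : ℂ) (N : ℕ) (h : ∀ i ≤ N, 0 < (orb u i).re) (hc : ‖orb u N - cQ‖ = 1/2)
    (δ : ℝ) (hδ : 0 < δ) : ∃ r ≤ δ, St (u, r, N) := by
  obtain ⟨r, hr, c, hcn, H⟩ := local_iso u N h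
  refine ⟨min (r/2) δ, min_le_right _ _, h, hc, lt_min (by linarith) hδ, ?_⟩
  intro v hv
  rw [Metric.mem_closedBall, dist_eq_norm] at hv
  have h1 : ‖v - u‖ < r := by
    have := le_trans hv (min_le_left _ _)
    linarith
  obtain ⟨h2, h3, -⟩ := H v h1
  exact ⟨h2, h3⟩

theorem next (p : ℂ × ℝ × ℕ) (hp : St p) (J : ℕ) : ∃ q : ℂ × ℝ × ℕ, St q ∧
    Metric.closedBall q.1 q.2.1 ⊆ Metric.closedBall p.1 p.2.1 ∧
    ∃ j, J ≤ j ∧ p.2.2 + j < q.2.2 ∧ (∀ i, p.2.2 ≤ i → i < p.2.2 + j → ¬ fl q.1 i) ∧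
      fl q.1 (p.2.2 + j) := by
  obtain ⟨u, r, N⟩ := p
  obtain ⟨h1, h2, h3, h4⟩ := hp
  simp only at h1 h2 h3 h4
  obtain ⟨u', j, hj, hd, k1, k2, k3, k4⟩ := extend u N h1 h2 (r/2) (by linarith) J
  obtain ⟨r', hr', hst⟩ := mkSt u' (N + j + 4) k1 k2 (r/2) (by linarith)
  refine ⟨(u', r', N + j + 4), hst, ?_, j, hj, by simp only; omega, k3, k4⟩
  apply Metric.closedBall_subset_closedBall'
  simp only
  rw [dist_eq_norm]
  linarith

theorem exists_orbit : ∃ u : ℂ, (∀ n, 0 < (orb u n).re) ∧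
    ∀ N p : ℕ, 1 ≤ p → ¬ ∀ n ≥ N, (fl u (n + p) ↔ fl u n) := by
  classical
  have h0 : ∃ p : ℂ × ℝ × ℕ, St p := by
    obtain ⟨r, -, hr⟩ := mkSt (cQ + 1/2) 0 (by
      intro i hi
      obtain rfl : i = 0 := by omega
      rw [orb_zero]
      simp [cQ]) (by rw [orb_zero]; simp) 1 one_pos
    exact ⟨_, hr⟩
  obtain ⟨p0, hp0⟩ := h0
  choose! nx hn1 hn2 hn3 using next
  let seq : ℕ → ℂ × ℝ × ℕ := fun k => Nat.rec p0 (fun k p => nx p (k+1)) k
  have hs0 : ∀ k, seq (k+1) = nx (seq k) (k+1) := fun k => rfl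
  have hst : ∀ k, St (seq k) := by
    intro k
    induction k with
    | zero => exact hp0
    | succ k ih => rw [hs0]; exact hn1 _ ih _
  have hN : ∀ k, (seq k).2.2 + k < (seq (k+1)).2.2 := by
    intro k
    obtain ⟨j, hj, hj2, -⟩ := hn3 (seq k) (hst k) (k+1)
    rw [hs0]
    omega
  have hNk : ∀ k, k ≤ (seq k).2.2 := by
    intro k
    induction k with
    | zero => exact Nat.zero_le _
    | succ k ih => have := hN k; omega
  have hne : (⋂ k, Metric.closedBall (seq k).1 (seq k).2.1).Nonempty := by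
    apply IsCompact.nonempty_iInter_of_sequence_nonempty_isCompact_isClosed
    · intro k
      rw [hs0]
      exact hn2 _ (hst k) _
    · intro k
      exact ⟨(seq k).1, Metric.mem_closedBall_self (hst k).2.2.1.le⟩
    · exact isCompact_closedBall _ _
    · intro k; exact Metric.isClosed_closedBall
  obtain ⟨u, hu⟩ := hne
  rw [Set.mem_iInter] at hu
  refine ⟨u, ?_, ?_⟩
  · intro n
    exact ((hst n).2.2.2 u (hu n)).1 n (hNk n)
  · intro N p hp hper
    set k := N + p with hk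
    obtain ⟨j, hj, hj2, hj3, hj4⟩ := hn3 (seq k) (hst k) (k+1)
    rw [← hs0] at hj2 hj3 hj4
    have hfl := ((hst (k+1)).2.2.2 u (hu (k+1))).2
    have hNk' := hNk k
    have e1 : fl u ((seq k).2.2 + j) := (hfl _ hj2).2 hj4
    have e2 := hper ((seq k).2.2 + j - p) (by omega)
    rw [show (seq k).2.2 + j - p + p = (seq k).2.2 + j by omega] at e2
    have e3 := (hfl ((seq k).2.2 + j - p) (by omega)).1 (e2.1 e1)
    exact hj3 _ (by omega) (by omega) e3

/-- `z n` is the point `z_{n-1}` of the problem (so `z 0` is the starting point), `ε n` is the sign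
`ε_n`: the walk moves from `z_{n-1}` to `z_n = z_{n-1} + ε_n e^{2πiαn}`, where `ε_n ∈ {1,-1}` is the
sign making `|z_n|` strictly smaller than the other choice (so no tie ever occurs). -/
structure IsGreedyWalk (α : ℝ) (z : ℕ → ℂ) (ε : ℕ → ℤ) : Prop where
  sign : ∀ n, ε n = 1 ∨ ε n = -1
  step : ∀ n, z (n+1) = z n + ε n * exp (2 * Real.pi * I * α * n)
  greedy : ∀ n, ‖z n + ε n * exp (2 * Real.pi * I * α * n)‖ <
    ‖z n - ε n * exp (2 * Real.pi * I * α * n)‖

/-- Eventual periodicity of a sign sequence. -/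
def EventuallyPeriodic (ε : ℕ → ℤ) : Prop :=
  ∃ N p : ℕ, 1 ≤ p ∧ ∀ n ≥ N, ε (n + p) = ε n

theorem exp_eq (n : ℕ) :
    exp (2 * Real.pi * I * ((Real.arccos (2/3) / (2 * Real.pi) : ℝ) : ℂ) * n) = rc^n := by
  have hpi : (Real.pi : ℂ) ≠ 0 := by exact_mod_cast Real.pi_ne_zero
  have h1 : rc = exp ((Real.arccos (2/3) : ℝ) * I) := by
    have h2 := rho_rc
    rw [rho_eq] at h2
    have h3 : exp ((Real.arccos (2/3) : ℝ) * I) * exp (-(Real.arccos (2/3) : ℝ) * I) = 1 := by
      rw [← exp_add]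
      rw [show ((Real.arccos (2/3) : ℝ) * I + -(Real.arccos (2/3) : ℝ) * I : ℂ) = 0 by ring, exp_zero]
    calc rc = (exp ((Real.arccos (2/3) : ℝ) * I) * exp (-(Real.arccos (2/3) : ℝ) * I)) * rc := by
          rw [h3, one_mul]
      _ = exp ((Real.arccos (2/3) : ℝ) * I) * (exp (-(Real.arccos (2/3) : ℝ) * I) * rc) := by ring
      _ = _ := by rw [h2, mul_one]
  rw [h1, ← exp_nat_mul]
  congr 1
  push_cast
  field_simp

open Classical in
/-- The sign of `Re v_n` for the point `v_n = e^{-2πiαn} z_{n-1}`. -/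
noncomputable def sg (u : ℂ) : ℕ → ℤ
  | 0 => 1
  | (n+1) => if fl u n then sg u n else - sg u n

/-- For the irrational number `α = arccos (2/3) / (2π) > 0` there is a starting point `z 0`
(the `z_{-1}` of the problem) whose greedy walk never meets a tie and whose sign sequence is not
eventually periodic. -/
theorem result : 0 < Real.arccos (2/3) / (2 * Real.pi) ∧
    Irrational (Real.arccos (2/3) / (2 * Real.pi)) ∧
    ∃ (z : ℕ → ℂ) (ε : ℕ → ℤ),
      IsGreedyWalk (Real.arccos (2/3) / (2 * Real.pi)) z ε ∧ ¬ EventuallyPeriodic ε := by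
  classical
  obtain ⟨u, hu1, hu2⟩ := exists_orbit
  set s : ℕ → ℤ := sg u with hsdef
  have hs1 : ∀ n, s (n+1) = if fl u n then s n else - s n := fun n => by rw [hsdef, sg]
  have hs : ∀ n, s n = 1 ∨ s n = -1 := by
    intro n
    induction n with
    | zero => left; rfl
    | succ n ih =>
      rw [hs1]
      split_ifs
      · exact ih
      · omega
  have hrc : rc * rho = 1 := by rw [mul_comm]; exact rho_rc
  have hstep : ∀ n, (s (n+1) : ℂ) * orb u (n+1) = rho * ((s n : ℂ) * orb u n - (s n : ℂ)) := by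
    intro n
    rw [orb_succ, hs1]
    unfold g
    by_cases hf : fl u n
    · rw [if_pos hf, if_pos (show 0 < (rho * (orb u n - 1)).re from hf)]; ring
    · rw [if_neg hf, if_neg (show ¬ 0 < (rho * (orb u n - 1)).re from hf)]; push_cast; ring
  have hrcn : ∀ n, ‖rc^n‖ = 1 := by
    intro n
    have h1 : ‖rho * rc‖ = 1 := by rw [rho_rc]; simp
    rw [norm_mul, norm_rho, one_mul] at h1
    rw [norm_pow, h1, one_pow]
  refine ⟨?_, irr, fun n => rc^n * ((s n : ℂ) * orb u n), fun n => - s n, ⟨?_, ?_, ?_⟩, ?_⟩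
  · have h1 : 0 < Real.arccos (2/3) := Real.arccos_pos.2 (by norm_num)
    have := Real.pi_pos
    positivity
  · intro n
    have := hs n
    omega
  · intro n
    rw [exp_eq]
    have h2 := hstep n
    push_cast
    rw [h2]
    linear_combination (rc^n * (s n * orb u n - s n)) * hrc
  · intro n
    rw [exp_eq]
    have h1 : rc^n * ((s n : ℂ) * orb u n) + ((-s n : ℤ) : ℂ) * rc^n = (rc^n * s n) * (orb u n - 1) := by
      push_cast; ring
    have h2 : rc^n * ((s n : ℂ) * orb u n) - ((-s n : ℤ) : ℂ) * rc^n = (rc^n * s n) * (orb u n + 1) := by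
      push_cast; ring
    have h3 : ‖rc^n * (s n : ℂ)‖ = 1 := by
      rw [norm_mul, hrcn, one_mul]
      rcases hs n with h | h <;> rw [h] <;> simp
    rw [h1, h2, norm_mul (rc^n * (s n : ℂ)) (orb u n - 1), norm_mul (rc^n * (s n : ℂ)) (orb u n + 1),
      h3, one_mul, one_mul]
    rw [Complex.norm_def, Complex.norm_def]
    apply Real.sqrt_lt_sqrt (normSq_nonneg _)
    rw [normSq_apply, normSq_apply]
    have := hu1 n
    simp
    nlinarith
  · rintro ⟨N, p, hp, hper⟩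
    apply hu2 N p hp
    intro n hn
    have hne : ∀ m, s m ≠ - s m := by intro m; have := hs m; omega
    have hfl : ∀ m, fl u m ↔ s (m+1) = s m := by
      intro m
      rw [hs1]
      by_cases hf : fl u m
      · simp [hf]
      · simp only [hf, if_false, false_iff]
        intro h; exact hne m h.symm
    rw [hfl, hfl]
    have h1 := hper n hn
    have h2 := hper (n+1) (by omega)
    rw [show n + 1 + p = n + p + 1 by ring] at h2
    simp only [neg_inj] at h1 h2
    rw [h1, h2]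

end Pool.Agent.Results.MP_e36abb_an.AperiodicSigns
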